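import Pool.Graph.R_seed8.H242R3.ES.Full
import Pool.Graph.R_seed8.H841.ES.K8a
import Pool.Graph.R_pool_sql_team_seeded_2aa45f1a.Q223.K8b
import Pool.Graph.R_pool_sql_team_seeded_2aa45f1a.Q223.Mob

/-!
# Lorentz geometry: future cone, boosts
-/

set_option autoImplicit false

namespace Pool.Agent.KS6_60.MB

open Pool.Agent.H242R3.ES Pool.Agent.H454R3.ES

variable {D : ℕ}

theorem B_symm (x y : LV D) : B x y = B y x := by
  unfold B
  rw [mul_comm (x none)]
  congr 1
  exact Finset.sum_congr rfl fun i _ => mul_comm _ _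

theorem B_add_left (x y z : LV D) : B (x + y) z = B x z + B y z := by
  unfold B
  simp only [Pi.add_apply, add_mul, Finset.sum_add_distrib]
  ring

theorem B_smul_left (a : ℝ) (x z : LV D) : B (a • x) z = a * B x z := by
  unfold B
  simp only [Pi.smul_apply, smul_eq_mul, mul_sub, Finset.mul_sum]
  congr 1
  · exact Finset.sum_congr rfl fun i _ => by ring
  · ring

theorem B_add_right (x y z : LV D) : B x (y + z) = B x y + B x z := by
  rw [B_symm, B_add_left, B_symm y, B_symm z]

theorem B_smul_right (a : ℝ) (x z : LV D) : B x (a • z) = a * B x z := by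
  rw [B_symm, B_smul_left, B_symm z]

theorem B_zero_left (z : LV D) : B 0 z = 0 := by simp [B]

theorem B_sum_left {ι : Type} (s : Finset ι) (g : ι → LV D) (z : LV D) :
    B (∑ i ∈ s, g i) z = ∑ i ∈ s, B (g i) z := by
  classical
  induction s using Finset.induction_on with
  | empty => simp [B_zero_left]
  | insert a s ha ih => rw [Finset.sum_insert ha, Finset.sum_insert ha, B_add_left, ih]

theorem B_sum_right {ι : Type} (s : Finset ι) (g : ι → LV D) (z : LV D) :
    B z (∑ i ∈ s, g i) = ∑ i ∈ s, B z (g i) := by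
  rw [B_symm, B_sum_left]
  exact Finset.sum_congr rfl fun i _ => B_symm _ _

/-- future timelike -/
def Fut (y : LV D) : Prop := 0 < y none ∧ ∑ i : Fin D, y (some i) ^ 2 < y none ^ 2

theorem Fut.add {y z : LV D} (hy : Fut y) (hz : Fut z) : Fut (y + z) := by
  obtain ⟨y0, y1⟩ := hy
  obtain ⟨z0, z1⟩ := hz
  refine ⟨add_pos y0 z0, ?_⟩
  have h1 : (∑ i : Fin D, y (some i) * z (some i)) ^ 2 ≤
      (∑ i : Fin D, y (some i) ^ 2) * ∑ i : Fin D, z (some i) ^ 2 := Finset.sum_mul_sq_le_sq_mul_sq _ _ _
  have hy' : 0 ≤ ∑ i : Fin D, y (some i) ^ 2 := Finset.sum_nonneg fun i _ => sq_nonneg _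
  have hz' : 0 ≤ ∑ i : Fin D, z (some i) ^ 2 := Finset.sum_nonneg fun i _ => sq_nonneg _
  have h2 : (∑ i : Fin D, y (some i) * z (some i)) ^ 2 ≤ (y none * z none) ^ 2 := by
    rw [mul_pow]
    exact h1.trans (mul_le_mul y1.le z1.le hz' (sq_nonneg _))
  have h3 : ∑ i : Fin D, y (some i) * z (some i) ≤ y none * z none :=
    (le_abs_self _).trans (abs_le_of_sq_le_sq h2 (mul_pos y0 z0).le)
  have h4 : ∑ i : Fin D, (y + z) (some i) ^ 2 = ∑ i : Fin D, y (some i) ^ 2 +
      2 * ∑ i : Fin D, y (some i) * z (some i) + ∑ i : Fin D, z (some i) ^ 2 := by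
    rw [Finset.mul_sum, ← Finset.sum_add_distrib, ← Finset.sum_add_distrib]
    refine Finset.sum_congr rfl fun i _ => ?_
    rw [Pi.add_apply]; ring
  rw [h4, Pi.add_apply]
  nlinarith

theorem Fut.sum {ι : Type} (s : Finset ι) (hs : s.Nonempty) (g : ι → LV D) (h : ∀ i ∈ s, Fut (g i)) :
    Fut (∑ i ∈ s, g i) :=
  Finset.sum_induction_nonempty g Fut (fun _ _ => Fut.add) hs h

theorem Fut.neg {y : LV D} (hy : Fut y) : B y y < 0 := by
  have : B y y = ∑ i : Fin D, y (some i) ^ 2 - y none ^ 2 := by
    unfold B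
    congr 1
    · exact Finset.sum_congr rfl fun i _ => by ring
    · ring
  rw [this]
  linarith [hy.2]

/-- a timelike vector having negative product with a point of the closed ball is future -/
theorem fut_of {y : LV D} {p : Fin D → ℝ} (hy : B y y < 0) (hp : ∑ i, p i ^ 2 ≤ 1)
    (h : B (hom p) y < 0) : Fut y := by
  have e : B y y = ∑ i : Fin D, y (some i) ^ 2 - y none ^ 2 := by
    unfold B
    congr 1
    · exact Finset.sum_congr rfl fun i _ => by ring
    · ring
  have e2 : B (hom p) y = ∑ i : Fin D, p i * y (some i) - y none := by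
    unfold B hom
    simp
  rw [e] at hy
  rw [e2] at h
  refine ⟨?_, by linarith⟩
  by_contra hc
  push Not at hc
  have h1 : (∑ i : Fin D, p i * y (some i)) ^ 2 ≤
      (∑ i : Fin D, p i ^ 2) * ∑ i : Fin D, y (some i) ^ 2 := Finset.sum_mul_sq_le_sq_mul_sq _ _ _
  have hy' : 0 ≤ ∑ i : Fin D, y (some i) ^ 2 := Finset.sum_nonneg fun i _ => sq_nonneg _
  have h2 : (∑ i : Fin D, p i * y (some i)) ^ 2 ≤ (-y none) ^ 2 := by
    have : (∑ i : Fin D, p i ^ 2) * ∑ i : Fin D, y (some i) ^ 2 ≤ 1 * ∑ i : Fin D, y (some i) ^ 2 :=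
      mul_le_mul_of_nonneg_right hp hy'
    nlinarith
  have h3 := abs_le_of_sq_le_sq h2 (by linarith)
  have h4 := neg_abs_le (∑ i : Fin D, p i * y (some i))
  linarith

/-- the boost to a future unit vector -/
noncomputable def bst (m : LV D) : LV D →ₗ[ℝ] LV D where
  toFun x := -x + (2 * B x m / B m m) • m
  map_add' x y := by
    rw [B_add_left]
    have : 2 * (B x m + B y m) / B m m = 2 * B x m / B m m + 2 * B y m / B m m := by ring
    rw [this, add_smul]
    abel
  map_smul' a x := by
    rw [B_smul_left]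
    have : 2 * (a * B x m) / B m m = a * (2 * B x m / B m m) := by ring
    rw [this, RingHom.id_apply, smul_add, smul_smul, smul_neg]

theorem bst_apply (m x : LV D) : bst m x = -x + (2 * B x m / B m m) • m := rfl

theorem B_neg_left (x y : LV D) : B (-x) y = -B x y := by
  have := B_smul_left (-1) x y
  simpa using this

theorem B_neg_right (x y : LV D) : B x (-y) = -B x y := by
  have := B_smul_right (-1) x y
  simpa using this

theorem bst_B {m : LV D} (hm : B m m ≠ 0) (x y : LV D) : B (bst m x) (bst m y) = B x y := by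
  rw [bst_apply, bst_apply]
  simp only [B_add_left, B_add_right, B_neg_left, B_neg_right, B_smul_left, B_smul_right]
  rw [B_symm m y]
  field_simp
  ring

/-- a future timelike vector can be moved to the time axis -/
theorem exists_bst {w : LV D} (hw : Fut w) : ∃ (T : LV D →ₗ[ℝ] LV D) (c : ℝ), 0 < c ∧
    (∀ x y, B (T x) (T y) = B x y) ∧ T w = c • tv D := by
  have h0 := hw.neg
  set s := Real.sqrt (-B w w) with hs
  have s0 : 0 < s := Real.sqrt_pos.2 (by linarith)
  have s2 : s * s = -B w w := Real.mul_self_sqrt (by linarith)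
  set a : LV D := s⁻¹ • w with ha
  have haa : B a a = -1 := by
    rw [ha, B_smul_left, B_smul_right, ← mul_assoc]
    have : B w w = -(s * s) := by linarith
    rw [this]
    field_simp
  have hat : B a (tv D) < 0 := by
    rw [B_tv, ha, Pi.smul_apply, smul_eq_mul]
    have := mul_pos (inv_pos.2 s0) hw.1
    linarith
  have htt : B (tv D) (tv D) = -1 := by rw [B_tv]; simp [tv]
  set m := a + tv D with hm
  have hmm : B m m = -2 + 2 * B a (tv D) := by
    rw [hm]
    simp only [B_add_left, B_add_right, haa, htt, B_symm (tv D) a]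
    ring
  have hm0 : B m m ≠ 0 := by rw [hmm]; linarith
  refine ⟨bst m, s, s0, bst_B hm0, ?_⟩
  have hw' : w = s • a := by rw [ha, smul_smul, mul_inv_cancel₀ s0.ne', one_smul]
  rw [hw', map_smul]
  congr 1
  have h2 : B a m = -1 + B a (tv D) := by rw [hm, B_add_right, haa]
  have h3 : 2 * B a m / B m m = 1 := by
    rw [div_eq_one_iff_eq hm0, h2, hmm]; ring
  rw [bst_apply, h3, one_smul, hm]
  abel

/-- maps preserving the form are injective -/
theorem inj_of {T : LV D →ₗ[ℝ] LV D} (hT : ∀ x y, B (T x) (T y) = B x y) : Function.Injective T := by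
  rw [injective_iff_map_eq_zero]
  intro x hx
  have h : ∀ y, B x y = 0 := fun y => by rw [← hT, hx, B_zero_left]
  ext i
  cases i with
  | none =>
    have := h (Pi.single none 1)
    unfold B at this
    simpa [Pi.single_apply] using this
  | some j =>
    have := h (Pi.single (some j) 1)
    unfold B at this
    simpa [Pi.single_apply] using this

end Pool.Agent.KS6_60.MB
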