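import Pool.Agent.KS6_60.MB.R

/-!
# Induced Lorentz maps, the invariant centre
-/

set_option autoImplicit false

namespace Pool.Agent.KS6_60.MB

open Pool.Agent.H242R3.ES Pool.Agent.H454R3.ES
open scoped Classical

theorem mainG : ∀ D, 3 ≤ D → MainG D :=
  main_of Pool.Agent.H603R3.ESG1.t Pool.Agent.H856R3.ESG2.t Pool.Agent.H242R3.ES.G3H78.t Full.g5 Full.g7
    Full.genV Pool.Agent.H146R3.ES.P1G.t Full.p7
    (Full.main3 Pool.Agent.H841.ESK8a.t Pool.Agent.Q223.K8b.t) Full.stepV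
    Pool.Agent.H318R3.ES.projV Pool.Agent.H780R3.ES.N14.t Pool.Agent.H885R3.ESN15.taskN15
    Pool.Agent.H722R5.ES.N16.t

/-- `f` is an isomorphism of the face lattices of the polytopes `conv V` and `conv W` -/
def Iso {D : ℕ} (V W : Finset (Fin D → ℝ)) (f : (Fin D → ℝ) → (Fin D → ℝ)) : Prop :=
  Set.BijOn f (EP V) (EP W) ∧
    ∀ S ⊆ EP V, (IsExposed ℝ (convexHull ℝ (V : Set (Fin D → ℝ))) (convexHull ℝ S) ↔
      IsExposed ℝ (convexHull ℝ (W : Set (Fin D → ℝ))) (convexHull ℝ (f '' S)))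

/-- full-dimensional polytopes with tangent edges -/
def Good {D : ℕ} (V : Finset (Fin D → ℝ)) : Prop :=
  (interior (convexHull ℝ (V : Set (Fin D → ℝ)))).Nonempty ∧ Tang V

/-- every isomorphism is induced by a Lorentz map -/
theorem ind {D : ℕ} (hD : 3 ≤ D) {V W : Finset (Fin D → ℝ)} (hV : Good V) (hW : Good W)
    {f : (Fin D → ℝ) → (Fin D → ℝ)} (hf : Iso V W f) :
    ∃ T : LV D →ₗ[ℝ] LV D, (∀ x y, B (T x) (T y) = B x y) ∧
      ∀ a ∈ EP V, ∃ c : ℝ, 0 < c ∧ T (hom a) = c • hom (f a) := by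
  obtain ⟨hVi, hTV⟩ := hV
  obtain ⟨hWi, hTW⟩ := hW
  obtain ⟨hbij, hf⟩ := hf
  have hfin : Finite (EP V) := (tr1 D (by omega) V hVi).1
  have : Fintype (EP V) := Fintype.ofFinite _
  obtain ⟨v1, -⟩ := tr2 D (by omega) V hVi hTV
  obtain ⟨w1, -⟩ := tr2 D (by omega) W hWi hTW
  let e : EP V ≃ EP W := hbij.equiv f
  have he : ∀ i : EP V, ((e i : EP W) : Fin D → ℝ) = f i := fun i => rfl
  have hfaces : ∀ S, Face (nv (Equiv.refl (EP V))) S ↔ Face (nv e) S := by
    intro S
    rcases S.eq_empty_or_nonempty with rfl | hS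
    · exact ⟨fun _ => face_empty w1 e, fun _ => face_empty v1 _⟩
    · rw [face_nv v1, face_nv w1]
      have hT : (Subtype.val '' S : Set (Fin D → ℝ)) ⊆ EP V := by
        rintro _ ⟨i, -, rfl⟩
        exact i.2
      have hTn : (Subtype.val '' S : Set (Fin D → ℝ)).Nonempty := hS.image _
      have h1 := f1 D V _ hT hTn
      have hfT : f '' (Subtype.val '' S) ⊆ EP W := by
        rintro _ ⟨_, ⟨i, -, rfl⟩, rfl⟩
        exact hbij.mapsTo i.2
      have h2 := f1 D W _ hfT (hTn.image f)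
      have h3 := hf _ hT
      have e1 : (Equiv.refl (EP V)) '' S = {i : EP V | (i : Fin D → ℝ) ∈ Subtype.val '' S} := by
        ext i
        constructor
        · rintro ⟨j, hj, rfl⟩
          exact ⟨j, hj, rfl⟩
        · rintro ⟨j, hj, hij⟩
          exact ⟨j, hj, Subtype.ext hij⟩
      have e2 : e '' S = {i : EP W | (i : Fin D → ℝ) ∈ f '' (Subtype.val '' S)} := by
        ext i
        constructor
        · rintro ⟨j, hj, rfl⟩
          exact ⟨j, ⟨j, hj, rfl⟩, rfl⟩
        · rintro ⟨_, ⟨j, hj, rfl⟩, hij⟩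
          exact ⟨j, hj, Subtype.ext hij⟩
      rw [e1, e2, ← h1, ← h2]
      exact h3
  obtain ⟨T, hT1, hT2⟩ := mainG D hD (EP V) (nv (Equiv.refl (EP V))) (nv e)
    (gq (by omega) hVi hTV tr1 tr2 _) (gq (by omega) hWi hTW tr1 tr2 _) hfaces
  refine ⟨T, hT1, fun a ha => ?_⟩
  have h1 := hT2 ⟨a, ha⟩
  have hva := nrm_pos (v1 a ha)
  have hwa := nrm_pos (w1 (f a) (hbij.mapsTo ha))
  refine ⟨nrm a * (nrm (f a))⁻¹, mul_pos hva (inv_pos.2 hwa), ?_⟩
  have h2 : T ((nrm a)⁻¹ • hom a) = (nrm (f a))⁻¹ • hom (f a) := h1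
  rw [map_smul] at h2
  have h3 : T (hom a) = nrm a • ((nrm a)⁻¹ • T (hom a)) := by
    rw [smul_smul, mul_inv_cancel₀ hva.ne', one_smul]
  rw [h3, h2, smul_smul]

/-- the factor of a Lorentz map -/
theorem factor {D : ℕ} {a b : Fin D → ℝ} (ha : 1 < ∑ i, a i ^ 2) (hb : 1 < ∑ i, b i ^ 2)
    {T : LV D →ₗ[ℝ] LV D} (hT : ∀ x y, B (T x) (T y) = B x y) {c : ℝ} (hc : 0 < c)
    (h : T (hom a) = c • hom b) : nrm a = c * nrm b := by
  have sa : B (hom a) (hom a) = nrm a * nrm a := by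
    rw [B_hom]; exact (Real.mul_self_sqrt (by linarith)).symm
  have sb : B (hom b) (hom b) = nrm b * nrm b := by
    rw [B_hom]; exact (Real.mul_self_sqrt (by linarith)).symm
  have := hT (hom a) (hom a)
  rw [h, B_smul_smul, sa, sb] at this
  have na := nrm_pos ha
  have nb := mul_pos hc (nrm_pos hb)
  nlinarith

/-- an edge-scribed polytope meets the closed ball -/
theorem edge_point {D : ℕ} (hD : 2 ≤ D) {V : Finset (Fin D → ℝ)} (hV : Good V) :
    ∃ p ∈ convexHull ℝ (V : Set (Fin D → ℝ)), ∑ i, p i ^ 2 ≤ 1 := by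
  obtain ⟨hint, hT⟩ := hV
  obtain ⟨hfin, hvert, hspan⟩ := tr1 D hD V hint
  have : Fintype (EP V) := Fintype.ofFinite _
  have hne : ∃ v w : EP V, v ≠ w := by
    by_contra hcon
    push Not at hcon
    have hPs : (convexHull ℝ (V : Set (Fin D → ℝ))).Subsingleton := by
      rw [F3.hull V]
      have : (EP V).Subsingleton := fun a ha b hb => congrArg Subtype.val (hcon ⟨a, ha⟩ ⟨b, hb⟩)
      rcases this.eq_empty_or_singleton with h | ⟨x, h⟩
      · rw [h, convexHull_empty]; exact Set.subsingleton_empty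
      · rw [h, convexHull_singleton]; exact Set.subsingleton_singleton
    have : interior (convexHull ℝ (V : Set (Fin D → ℝ))) = ∅ := by
      have : Nonempty (Fin D) := ⟨⟨0, by omega⟩⟩
      rcases hPs.eq_empty_or_singleton with h | ⟨x, h⟩
      · rw [h, interior_empty]
      · rw [h, interior_singleton]
    rw [this] at hint
    exact Set.not_nonempty_empty hint
  obtain ⟨v, w, hvw⟩ := hne
  obtain ⟨y, a, ha, hak, hw⟩ := Full.genV (EP V) (LV D)
    (fun i : EP V => hom (i : Fin D → ℝ)) hvert v Set.univ ⟨0, fun _ => le_rfl, fun i => by simp⟩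
    (Set.mem_univ _) w (Set.mem_univ _)
  have hk : ∃ k, a k ≠ 0 := by
    by_contra hcon
    push Not at hcon
    have h1 : (hom (w : Fin D → ℝ) : LV D) = y • hom (v : Fin D → ℝ) := by
      rw [hw]
      simp [hcon]
    have hy : y = 1 := by
      have := congrFun h1 none
      simpa [hom] using this.symm
    apply hvw
    apply Subtype.ext
    ext i
    have := congrFun h1 (some i)
    rw [hy] at this
    simpa [hom] using this.symm
  obtain ⟨k, hk⟩ := hk
  obtain ⟨-, hkv, hface⟩ := hak k hk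
  have hvk : (v : Fin D → ℝ) ≠ (k : Fin D → ℝ) := fun h => hkv (Subtype.ext h.symm)
  have hexp : IsExposed ℝ (convexHull ℝ (V : Set (Fin D → ℝ))) (segment ℝ (v : Fin D → ℝ) (k : Fin D → ℝ)) := by
    have h1 := (f1 D V {(v : Fin D → ℝ), (k : Fin D → ℝ)}
      (by
        rintro x (rfl | rfl)
        · exact v.2
        · exact k.2) ⟨v, Or.inl rfl⟩).2
    rw [convexHull_pair] at h1
    apply h1
    have h2 : {i : EP V | (i : Fin D → ℝ) ∈ ({(v : Fin D → ℝ), (k : Fin D → ℝ)} : Set (Fin D → ℝ))} = {v, k} := by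
      ext i
      simp only [Set.mem_ofPred_eq, Set.mem_insert_iff, Set.mem_singleton_iff, Subtype.ext_iff]
    rw [h2]
    exact hface
  have hvV : (v : Fin D → ℝ) ∈ V := extremePoints_convexHull_subset v.2
  have hkV : (k : Fin D → ℝ) ∈ V := extremePoints_convexHull_subset k.2
  obtain ⟨p, hp, hp1, -⟩ := hT v hvV k hkV hvk hexp
  exact ⟨p, (convex_convexHull ℝ _).segment_subset v.2.1 k.2.1 hp, hp1.le⟩

/-- **the invariant centre** -/
theorem avg {D : ℕ} (hD : 2 ≤ D) {V : Finset (Fin D → ℝ)} (hV : Good V) :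
    ∃ w : LV D, Fut w ∧ (∀ a ∈ EP V, B (hom a) w < 0) ∧
      ∀ S : LV D →ₗ[ℝ] LV D, (∀ x y, B (S x) (S y) = B x y) →
        (∀ a ∈ EP V, ∃ b ∈ EP V, ∃ c : ℝ, 0 < c ∧ S (hom a) = c • hom b) → S w = w := by
  obtain ⟨p, hp, hp1⟩ := edge_point hD hV
  obtain ⟨hint, hT⟩ := hV
  obtain ⟨hfin, hvert, hspan⟩ := tr1 D hD V hint
  obtain ⟨hout, hedge⟩ := tr2 D hD V hint hT
  have hVf : (EP V).Finite := V.finite_toSet.subset extremePoints_convexHull_subset
  let u : (Fin D → ℝ) → LV D := fun a => (nrm a)⁻¹ • hom a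
  let X : Set (LV D) := u '' EP V
  have hXf : X.Finite := hVf.image u
  have hXs : Submodule.span ℝ X = ⊤ := by
    rw [eq_top_iff, ← hspan, Submodule.span_le]
    rintro _ ⟨i, rfl⟩
    show hom (i : Fin D → ℝ) ∈ _
    have h1 : hom (i : Fin D → ℝ) = (nrm (i : Fin D → ℝ)) • u i := by
      show _ = nrm (i : Fin D → ℝ) • ((nrm (i : Fin D → ℝ))⁻¹ • hom (i : Fin D → ℝ))
      rw [smul_smul, mul_inv_cancel₀ (nrm_pos (hout i i.2)).ne', one_smul]
    rw [h1]
    exact Submodule.smul_mem _ _ (Submodule.subset_span ⟨i, i.2, rfl⟩)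
  let G : Set (LV D →ₗ[ℝ] LV D) := {T | (∀ x y, B (T x) (T y) = B x y) ∧ Set.MapsTo T X X}
  have hfX : Finite X := hXf.to_subtype
  have hGf : Finite G := by
    refine Finite.of_injective (β := X → X) (fun T => fun x => ⟨T.1 x, T.2.2 x.2⟩) ?_
    intro T T' h
    apply Subtype.ext
    apply LinearMap.ext_on hXs
    intro x hx
    exact congrArg Subtype.val (congrFun h ⟨x, hx⟩)
  have : Fintype G := Fintype.ofFinite _
  have hsurj : ∀ T ∈ G, T '' X = X := by
    intro T hT'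
    refine Set.eq_of_subset_of_ncard_le (Set.mapsTo_iff_image_subset.1 hT'.2) ?_ hXf
    rw [Set.ncard_image_of_injective _ (inj_of hT'.1)]
  -- signs
  have hneg : ∀ T ∈ G, ∀ a ∈ EP V, B (hom a) (T (tv D)) < 0 := by
    intro T hT' a ha
    have h1 : u a ∈ T '' X := by rw [hsurj T hT']; exact ⟨a, ha, rfl⟩
    obtain ⟨_, ⟨b, hb, rfl⟩, hx⟩ := h1
    have h2 : hom a = nrm a • u a := by
      show _ = nrm a • ((nrm a)⁻¹ • hom a)
      rw [smul_smul, mul_inv_cancel₀ (nrm_pos (hout a ha)).ne', one_smul]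
    rw [h2, ← hx, B_smul_left, hT'.1, B_tv]
    have h3 : 0 < u b none := by
      show 0 < (nrm b)⁻¹ * (hom b none)
      simp only [hom, Option.elim, mul_one]
      exact inv_pos.2 (nrm_pos (hout b hb))
    have := mul_pos (nrm_pos (hout a ha)) h3
    linarith
  have hfut : ∀ T ∈ G, Fut (T (tv D)) := by
    intro T hT'
    refine fut_of (p := p) ?_ hp1 ?_
    · rw [hT'.1, B_tv]; simp [tv]
    · rw [F3.hull V, ← hVf.coe_toFinset] at hp
      obtain ⟨w, w0, w1, -, w3⟩ := mem_hull_hom hp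
      rw [w3, B_sum_left]
      have h1 : ∃ a ∈ hVf.toFinset, w a ≠ 0 := by
        by_contra hcon
        push Not at hcon
        rw [Finset.sum_eq_zero hcon] at w1
        exact zero_ne_one w1
      obtain ⟨a, ha, hwa⟩ := h1
      have hn : ∀ b ∈ hVf.toFinset, B (hom b) (T (tv D)) < 0 := fun b hb =>
        hneg T hT' b (hVf.mem_toFinset.1 hb)
      have h2 : 0 < ∑ b ∈ hVf.toFinset, -(B (w b • hom b) (T (tv D))) := by
        refine Finset.sum_pos' (fun b hb => ?_) ⟨a, ha, ?_⟩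
        · rw [B_smul_left]
          have := mul_nonneg (w0 b hb) (by linarith [hn b hb] : 0 ≤ -B (hom b) (T (tv D)))
          linarith
        · rw [B_smul_left]
          have := mul_pos (lt_of_le_of_ne (w0 a ha) (Ne.symm hwa)) (by linarith [hn a ha] : 0 < -B (hom a) (T (tv D)))
          linarith
      rw [Finset.sum_neg_distrib] at h2
      linarith
  have hid : LinearMap.id ∈ G := ⟨fun _ _ => rfl, fun _ h => h⟩
  refine ⟨∑ T : G, T.1 (tv D), Fut.sum _ ⟨⟨_, hid⟩, Finset.mem_univ _⟩ _ (fun T _ => hfut T.1 T.2), ?_, ?_⟩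
  · intro a ha
    rw [B_sum_right]
    exact Finset.sum_neg (fun T _ => hneg T.1 T.2 a ha) ⟨⟨_, hid⟩, Finset.mem_univ _⟩
  · intro S hS hS'
    have hSG : S ∈ G := by
      refine ⟨hS, ?_⟩
      rintro _ ⟨a, ha, rfl⟩
      obtain ⟨b, hb, c, hc, h⟩ := hS' a ha
      refine ⟨b, hb, ?_⟩
      have h1 := factor (hout a ha) (hout b hb) hS hc h
      show (nrm b)⁻¹ • hom b = S ((nrm a)⁻¹ • hom a)
      rw [map_smul, h, smul_smul, h1]
      congr 1
      have := (nrm_pos (hout b hb)).ne'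
      field_simp
    have hSi := inj_of hS
    let e : G → G := fun T => ⟨S ∘ₗ T.1, fun x y => by
      show B (S (T.1 x)) (S (T.1 y)) = B x y
      rw [hS, T.2.1], fun x hx => hSG.2 (T.2.2 hx)⟩
    have hei : Function.Injective e := by
      intro T T' h
      apply Subtype.ext
      refine LinearMap.ext fun x => hSi ?_
      exact LinearMap.congr_fun (congrArg Subtype.val h) x
    have heb : Function.Bijective e := Finite.injective_iff_bijective.1 hei
    rw [map_sum]
    exact heb.sum_comp (fun T : G => T.1 (tv D))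

end Pool.Agent.KS6_60.MB
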