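import Pool.Agent.KS6_60.MB.C

/-!
# The image of a polytope under a Lorentz map, orthogonal maps
-/

set_option autoImplicit false

namespace Pool.Agent.KS6_60.MB

open Finset Matrix
open Pool.Agent.H242R3.ES Pool.Agent.H454R3.ES
open scoped Classical

open Pool.Agent.H242R3.ES.F3 in
theorem image_hull {D : ℕ} {V W : Finset (Fin D → ℝ)} {f : (Fin D → ℝ) → (Fin D → ℝ)}
    (hf : Set.BijOn f (EP V) (EP W)) (T : LV D →ₗ[ℝ] LV D)
    (hc : ∀ a ∈ EP V, ∃ c : ℝ, 0 < c ∧ T (hom a) = c • hom (f a)) :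
    (∀ x ∈ convexHull ℝ (V : Set (Fin D → ℝ)), 0 < T (hom x) none) ∧
      (fun x : Fin D → ℝ => fun j : Fin D => T (hom x) (some j) / T (hom x) none)
        '' convexHull ℝ (V : Set (Fin D → ℝ)) = convexHull ℝ (W : Set (Fin D → ℝ)) := by
  have hVf : (EP V).Finite := V.finite_toSet.subset extremePoints_convexHull_subset
  have hWf : (EP W).Finite := W.finite_toSet.subset extremePoints_convexHull_subset
  obtain ⟨S, hS⟩ : ∃ S : Finset (Fin D → ℝ), (S : Set (Fin D → ℝ)) = EP V :=
    ⟨hVf.toFinset, hVf.coe_toFinset⟩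
  have hSW : ((S.image f : Finset (Fin D → ℝ)) : Set (Fin D → ℝ)) = EP W := by
    rw [Finset.coe_image, hS]
    exact hf.image_eq
  have hinj : Set.InjOn f (S : Set (Fin D → ℝ)) := by rw [hS]; exact hf.injOn
  have hc' : ∀ a, ∃ c : ℝ, a ∈ S → 0 < c ∧ T (hom a) = c • hom (f a) := by
    intro a
    by_cases ha : a ∈ S
    · obtain ⟨c, h1, h2⟩ := hc a (by rw [← hS]; exact ha)
      exact ⟨c, fun _ => ⟨h1, h2⟩⟩
    · exact ⟨0, fun h => absurd h ha⟩
  choose c hc using hc'
  -- the value at a convex combination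
  have hval : ∀ w : (Fin D → ℝ) → ℝ, ∑ a ∈ S, w a = 1 →
      T (hom (∑ a ∈ S, w a • a)) = ∑ a ∈ S, (w a * c a) • hom (f a) := by
    intro w hw
    rw [hom_sum S w hw, map_sum]
    refine Finset.sum_congr rfl fun a ha => ?_
    rw [map_smul, (hc a ha).2, smul_smul]
  have hnone : ∀ w : (Fin D → ℝ) → ℝ, ∑ a ∈ S, w a = 1 →
      T (hom (∑ a ∈ S, w a • a)) none = ∑ a ∈ S, w a * c a := by
    intro w hw
    rw [hval w hw, Finset.sum_apply]
    refine Finset.sum_congr rfl fun a _ => ?_
    simp [hom]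
  have hsome : ∀ w : (Fin D → ℝ) → ℝ, ∑ a ∈ S, w a = 1 → ∀ j,
      T (hom (∑ a ∈ S, w a • a)) (some j) = ∑ a ∈ S, w a * c a * f a j := by
    intro w hw j
    rw [hval w hw, Finset.sum_apply]
    refine Finset.sum_congr rfl fun a _ => ?_
    simp [hom]
  have hpos : ∀ w : (Fin D → ℝ) → ℝ, (∀ a ∈ S, 0 ≤ w a) → ∑ a ∈ S, w a = 1 →
      0 < ∑ a ∈ S, w a * c a := by
    intro w hw0 hw
    have h1 : ∃ a ∈ S, w a ≠ 0 := by
      by_contra hcon
      push Not at hcon
      rw [Finset.sum_eq_zero hcon] at hw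
      exact zero_ne_one hw
    obtain ⟨a, ha, hwa⟩ := h1
    exact Finset.sum_pos' (fun b hb => mul_nonneg (hw0 b hb) (hc b hb).1.le)
      ⟨a, ha, mul_pos (lt_of_le_of_ne (hw0 a ha) (Ne.symm hwa)) (hc a ha).1⟩
  refine ⟨?_, ?_⟩
  · intro x hx
    rw [hull V, ← hS, Finset.mem_convexHull'] at hx
    obtain ⟨w, hw0, hw1, rfl⟩ := hx
    rw [hnone w hw1]
    exact hpos w hw0 hw1
  · ext y
    simp only [Set.mem_image]
    constructor
    · rintro ⟨x, hx, rfl⟩
      rw [hull V, ← hS, Finset.mem_convexHull'] at hx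
      obtain ⟨w, hw0, hw1, rfl⟩ := hx
      set N := ∑ a ∈ S, w a * c a with hN
      have hNp : 0 < N := hpos w hw0 hw1
      have hy : (fun j : Fin D => T (hom (∑ a ∈ S, w a • a)) (some j) /
          T (hom (∑ a ∈ S, w a • a)) none) = ∑ a ∈ S, (w a * c a / N) • f a := by
        ext j
        rw [hnone w hw1, hsome w hw1, Finset.sum_apply, ← hN, Finset.sum_div]
        refine Finset.sum_congr rfl fun a _ => ?_
        rw [Pi.smul_apply, smul_eq_mul]
        ring
      rw [hy, hull W]
      refine (convex_convexHull ℝ _).sum_mem ?_ ?_ ?_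
      · intro a ha
        exact div_nonneg (mul_nonneg (hw0 a ha) (hc a ha).1.le) hNp.le
      · rw [← Finset.sum_div, ← hN, div_self hNp.ne']
      · intro a ha
        apply subset_convexHull
        rw [← hSW]
        exact Finset.mem_coe.2 (Finset.mem_image_of_mem f ha)
    · intro hy
      rw [hull W, ← hSW, Finset.mem_convexHull'] at hy
      obtain ⟨v, hv0, hv1, hy⟩ := hy
      rw [Finset.sum_image hinj] at hv1 hy
      have hv0' : ∀ a ∈ S, 0 ≤ v (f a) := fun a ha => hv0 _ (Finset.mem_image_of_mem f ha)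
      set K := ∑ a ∈ S, v (f a) / c a with hK
      have hKp : 0 < K := by
        have h1 : ∃ a ∈ S, v (f a) ≠ 0 := by
          by_contra hcon
          push Not at hcon
          rw [Finset.sum_eq_zero hcon] at hv1
          exact zero_ne_one hv1
        obtain ⟨a, ha, hva⟩ := h1
        exact Finset.sum_pos' (fun b hb => div_nonneg (hv0' b hb) (hc b hb).1.le)
          ⟨a, ha, div_pos (lt_of_le_of_ne (hv0' a ha) (Ne.symm hva)) (hc a ha).1⟩
      let w : (Fin D → ℝ) → ℝ := fun a => v (f a) / c a / K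
      have hw0 : ∀ a ∈ S, 0 ≤ w a := fun a ha =>
        div_nonneg (div_nonneg (hv0' a ha) (hc a ha).1.le) hKp.le
      have hw1 : ∑ a ∈ S, w a = 1 := by
        show ∑ a ∈ S, v (f a) / c a / K = 1
        rw [← Finset.sum_div, ← hK, div_self hKp.ne']
      have hwc : ∀ a ∈ S, w a * c a = v (f a) / K := by
        intro a ha
        have := (hc a ha).1.ne'
        show v (f a) / c a / K * c a = v (f a) / K
        field_simp
      have hN : ∑ a ∈ S, w a * c a = 1 / K := by
        rw [Finset.sum_congr rfl hwc, ← Finset.sum_div, hv1]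
      refine ⟨∑ a ∈ S, w a • a, ?_, ?_⟩
      · rw [hull V, ← hS, Finset.mem_convexHull']
        exact ⟨w, hw0, hw1, rfl⟩
      · rw [← hy]
        ext j
        rw [hnone w hw1, hsome w hw1, Finset.sum_apply, hN]
        have h1 : ∀ a ∈ S, w a * c a * f a j = v (f a) * f a j / K := by
          intro a ha
          rw [hwc a ha]
          ring
        rw [Finset.sum_congr rfl h1, ← Finset.sum_div]
        have h2 : ∀ a ∈ S, (v (f a) • f a) j = v (f a) * f a j := fun a _ => by
          rw [Pi.smul_apply, smul_eq_mul]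
        rw [Finset.sum_congr rfl h2]
        field_simp


variable {D : ℕ}

/-- the form of a Lorentz matrix -/
theorem B_mulVec {M : Matrix (Option (Fin D)) (Option (Fin D)) ℝ} (hM : Pool.Agent.Q223.Mob.IsL M) (x y : LV D) :
    B (M *ᵥ x) (M *ᵥ y) = B x y := by
  have h := Pool.Agent.Q223.Mob.Q_mulVec hM x y
  rw [Pool.Agent.Q223.Mob.Q_eq, Pool.Agent.Q223.Mob.Q_eq] at h
  unfold B
  linarith

/-- **The symmetric model**: automorphisms are orthogonal. -/
theorem model (hD : 3 ≤ D) {V : Finset (Fin D → ℝ)} (hV : Good V) :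
    ∃ (W : Finset (Fin D → ℝ)) (g : (Fin D → ℝ) → (Fin D → ℝ)), Good W ∧ Iso V W g ∧
      ∀ f, Iso W W f → ∃ O ∈ Matrix.orthogonalGroup (Fin D) ℝ, ∀ v ∈ EP W, O *ᵥ v = f v := by
  obtain ⟨w, hw, hneg, hinv⟩ := avg (by omega) hV
  obtain ⟨A, c0, hc0, hA, hAw⟩ := exists_bst hw
  have hpos : ∀ a ∈ EP V, 0 < A (hom a) none := by
    intro a ha
    have h1 := hneg a ha
    rw [← hA, hAw, B_smul_right, B_tv] at h1
    by_contra hcon
    push Not at hcon
    have := mul_nonneg hc0.le (by linarith : 0 ≤ -A (hom a) none)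
    linarith
  obtain ⟨W, g, hWi, hWT, hWE, hbij, hfaces, hg⟩ := real (by omega) hV.1 hV.2 A hA hpos
  refine ⟨W, g, ⟨hWi, hWT⟩, ⟨hbij, hfaces⟩, ?_⟩
  intro f hf
  obtain ⟨T, hT, hTc⟩ := ind hD ⟨hWi, hWT⟩ ⟨hWi, hWT⟩ hf
  have hAi := inj_of hA
  let e := LinearEquiv.ofBijective A ⟨hAi, LinearMap.surjective_of_injective hAi⟩
  have he : ∀ x, e.symm (A x) = x := fun x => e.symm_apply_apply x
  have he' : ∀ x, A (e.symm x) = x := fun x => e.apply_symm_apply x
  have hfix : T (tv D) = tv D := by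
    have h1 := hinv (e.symm.toLinearMap ∘ₗ T ∘ₗ A) (fun x y => by
      show B (e.symm (T (A x))) (e.symm (T (A y))) = B x y
      rw [← hA, he', he', hT, hA]) (fun a ha => by
      obtain ⟨c, hc, h2⟩ := hTc (g a) (hbij.mapsTo ha)
      obtain ⟨b, hb, hgb⟩ := hbij.surjOn (hf.1.mapsTo (hbij.mapsTo ha))
      refine ⟨b, hb, A (hom a) none * c * (A (hom b) none)⁻¹,
        mul_pos (mul_pos (hpos a ha) hc) (inv_pos.2 (hpos b hb)), ?_⟩
      show e.symm (T (A (hom a))) = _
      rw [hg a ha, map_smul, h2, ← hgb]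
      have h3 : hom (g b) = (A (hom b) none)⁻¹ • A (hom b) := by
        conv_rhs => rw [hg b hb]
        rw [smul_smul]
        have h4 : ((A (hom b) none) • (hom (g b) : LV D)) none = A (hom b) none := by simp [hom]
        rw [h4, inv_mul_cancel₀ (hpos b hb).ne', one_smul]
      rw [h3]
      simp only [map_smul, he, smul_smul]
      congr 1
      have h4 : ((A (hom a) none) • (hom (g a) : LV D)) none = A (hom a) none := by simp [hom]
      rw [h4, mul_assoc])
    have h2 : e.symm (T (A w)) = w := h1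
    have h3 : T (A w) = A w := by rw [← he' (T (A w)), h2]
    rw [hAw, map_smul] at h3
    have h4 := congrArg (fun x => c0⁻¹ • x) h3
    simpa [smul_smul, inv_mul_cancel₀ hc0.ne'] using h4
  have hnone : ∀ x, T x none = x none := by
    intro x
    have h1 := hT x (tv D)
    rw [hfix, B_tv, B_tv] at h1
    linarith
  have hTv : ∀ v ∈ EP W, T (hom v) = hom (f v) := by
    intro v hv
    obtain ⟨c, hc, h⟩ := hTc v hv
    have h1 := hnone (hom v)
    rw [h] at h1
    have h2 : c = 1 := by simpa [hom] using h1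
    rw [h, h2, one_smul]
  have htv : (tv D : LV D) = Pi.single none 1 := by
    ext i
    cases i with
    | none => simp [tv]
    | some j => simp [tv]
  refine ⟨(LinearMap.toMatrix' T).submatrix some some, ?_, ?_⟩
  · rw [Matrix.mem_orthogonalGroup_iff']
    ext i j
    rw [Matrix.mul_apply]
    have h1 : B (T (Pi.single (some i) 1)) (T (Pi.single (some j) 1)) =
        B (Pi.single (some i) 1 : LV D) (Pi.single (some j) 1) := hT _ _
    have h2 : T (Pi.single (some i) 1) none = 0 := by rw [hnone]; simp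
    unfold B at h1
    rw [h2] at h1
    simp only [zero_mul, sub_zero] at h1
    have h3 : ∀ k : Fin D, ((LinearMap.toMatrix' T).submatrix some some : Matrix (Fin D) (Fin D) ℝ)ᵀ i k *
        ((LinearMap.toMatrix' T).submatrix some some : Matrix (Fin D) (Fin D) ℝ) k j =
        T (Pi.single (some i) 1) (some k) * T (Pi.single (some j) 1) (some k) := by
      intro k
      rw [Matrix.transpose_apply, Matrix.submatrix_apply, Matrix.submatrix_apply,
        LinearMap.toMatrix'_apply, LinearMap.toMatrix'_apply]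
    rw [Finset.sum_congr rfl fun k _ => h3 k, h1, Matrix.one_apply]
    simp [Pi.single_apply, eq_comm]
  · intro v hv
    ext j
    have h1 : (LinearMap.toMatrix' T *ᵥ hom v) (some j) = f v j := by
      rw [LinearMap.toMatrix'_mulVec, hTv v hv]; rfl
    have h2 : T (Pi.single none 1) (some j) = 0 := by rw [← htv, hfix]; rfl
    rw [← h1, Matrix.mulVec_eq_sum, Matrix.mulVec_eq_sum, Fintype.sum_option]
    simp only [Finset.sum_apply, Pi.add_apply, Pi.smul_apply, Matrix.transpose_apply, Matrix.submatrix_apply,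
      LinearMap.toMatrix'_apply, h2, hom, Option.elim]
    simp

end Pool.Agent.KS6_60.MB
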