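import Pool.Agent.KS6_60.MB.A

/-!
# The polytope obtained from an edge-scribed polytope by a Lorentz map
-/

set_option autoImplicit false

namespace Pool.Agent.KS6_60.MB

open Pool.Agent.H242R3.ES Pool.Agent.H454R3.ES
open scoped Classical

variable {D : ℕ}

theorem tr1 : TR1 := Pool.Agent.H666R3.ES.t Pool.Agent.H780R3.ES.t
theorem tr2 : TR2 := Pool.Agent.H115R3.ES.TR2.t Pool.Agent.H780R3.ES.t tr1 Full.genV
theorem f1 : TaskF1 := Pool.Agent.H780R3.ES.t

theorem mem_hull_hom {W : Finset (Fin D → ℝ)} {x : Fin D → ℝ}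
    (hx : x ∈ convexHull ℝ (W : Set (Fin D → ℝ))) :
    ∃ w : (Fin D → ℝ) → ℝ, (∀ a ∈ W, 0 ≤ w a) ∧ ∑ a ∈ W, w a = 1 ∧ ∑ a ∈ W, w a • a = x ∧
      hom x = ∑ a ∈ W, w a • hom a := by
  rw [Finset.mem_convexHull'] at hx
  obtain ⟨w, h0, h1, h2⟩ := hx
  exact ⟨w, h0, h1, h2, by rw [← h2, F3.hom_sum W w h1]⟩

/-- a point of `W` which is cut out by a linear form is a vertex -/
theorem ext_of_face {W : Finset (Fin D → ℝ)} {v : Fin D → ℝ} (hv : v ∈ W) (l : LV D →ₗ[ℝ] ℝ)
    (h0 : ∀ w ∈ W, 0 ≤ l (hom w)) (h1 : ∀ w ∈ W, l (hom w) = 0 → w = v) (h2 : l (hom v) = 0) :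
    v ∈ EP W := by
  have key : ∀ x ∈ convexHull ℝ (W : Set (Fin D → ℝ)), 0 ≤ l (hom x) ∧ (l (hom x) = 0 → x = v) := by
    intro x hx
    obtain ⟨w, w0, w1, w2, w3⟩ := mem_hull_hom hx
    have e : l (hom x) = ∑ a ∈ W, w a * l (hom a) := by
      rw [w3, map_sum]
      exact Finset.sum_congr rfl fun a _ => by rw [map_smul, smul_eq_mul]
    refine ⟨by rw [e]; exact Finset.sum_nonneg fun a ha => mul_nonneg (w0 a ha) (h0 a ha), fun hx0 => ?_⟩
    rw [e, Finset.sum_eq_zero_iff_of_nonneg fun a ha => mul_nonneg (w0 a ha) (h0 a ha)] at hx0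
    have hz : ∀ a ∈ W, a ≠ v → w a = 0 := fun a ha hav =>
      (mul_eq_zero.1 (hx0 a ha)).resolve_right fun h => hav (h1 a ha h)
    rw [Finset.sum_eq_single v (fun a ha hav => hz a ha hav) (fun h => absurd hv h)] at w1
    rw [← w2, Finset.sum_eq_single v (fun a ha hav => by rw [hz a ha hav, zero_smul])
      (fun h => absurd hv h), w1, one_smul]
  have hvm : v ∈ convexHull ℝ (W : Set (Fin D → ℝ)) := subset_convexHull ℝ _ hv
  show v ∈ Set.extremePoints ℝ (convexHull ℝ (W : Set (Fin D → ℝ)))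
  rw [mem_extremePoints]
  refine ⟨hvm, ?_⟩
  rintro x hx y hy ⟨s, t, hs, ht, hst, hxy⟩
  have e : l (hom v) = s * l (hom x) + t * l (hom y) := by
    have : hom v = s • hom x + t • hom y := by
      rw [← hxy]
      ext i
      cases i with
      | none => simp [hom, hst]
      | some j => simp [hom]
    rw [this, map_add, map_smul, map_smul, smul_eq_mul, smul_eq_mul]
  rw [h2] at e
  have hx' := key x hx
  have hy' := key y hy
  have a1 := mul_nonneg hs.le hx'.1
  have a2 := mul_nonneg ht.le hy'.1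
  have b1 : s * l (hom x) = 0 := by linarith
  have b2 : t * l (hom y) = 0 := by linarith
  exact ⟨hx'.2 ((mul_eq_zero.1 b1).resolve_left hs.ne'), hy'.2 ((mul_eq_zero.1 b2).resolve_left ht.ne')⟩

/-- if the lifts span, the hull has interior points -/
theorem interior_of_span {W : Finset (Fin D → ℝ)} (hne : W.Nonempty)
    (h : Submodule.span ℝ (hom '' (W : Set (Fin D → ℝ))) = ⊤) :
    (interior (convexHull ℝ (W : Set (Fin D → ℝ)))).Nonempty := by
  rw [interior_convexHull_nonempty_iff_affineSpan_eq_top]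
  obtain ⟨w0, hw0⟩ := hne
  have hne' : (W : Set (Fin D → ℝ)).Nonempty := ⟨w0, hw0⟩
  rw [AffineSubspace.affineSpan_eq_top_iff_vectorSpan_eq_top_of_nonempty ℝ _ _ hne']
  by_contra hcon
  obtain ⟨g, hg0, hg⟩ := Submodule.exists_le_ker_of_lt_top _ (lt_top_iff_ne_top.2 hcon)
  -- the linear form `X ↦ g (X some) - g w0 * X none`
  let π : LV D →ₗ[ℝ] (Fin D → ℝ) := LinearMap.funLeft ℝ ℝ some
  let l : LV D →ₗ[ℝ] ℝ := g ∘ₗ π - g w0 • LinearMap.proj none
  have hl : ∀ w ∈ W, l (hom w) = 0 := by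
    intro w hw
    have h1 : w - w0 ∈ vectorSpan ℝ (W : Set (Fin D → ℝ)) :=
      vsub_mem_vectorSpan ℝ (Finset.mem_coe.2 hw) (Finset.mem_coe.2 hw0)
    have h2 : g (w - w0) = 0 := hg h1
    rw [map_sub] at h2
    have h3 : π (hom w) = w := by ext j; rfl
    show g (π (hom w)) - g w0 * (hom w none) = 0
    rw [h3]
    simp only [hom, Option.elim, mul_one]
    exact h2
  have hl0 : l = 0 := by
    apply LinearMap.ext_on h
    rintro _ ⟨w, hw, rfl⟩
    rw [hl w hw]; rfl
  apply hg0
  refine LinearMap.ext fun x => ?_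
  have h4 := LinearMap.congr_fun hl0 (fun i => Option.elim i 0 x : LV D)
  have h3 : π (fun i => Option.elim i 0 x : LV D) = x := by ext j; rfl
  have h5 : g (π (fun i => Option.elim i 0 x : LV D)) - g w0 * (Option.elim (none : Option (Fin D)) 0 x) = 0 := h4
  rw [h3] at h5
  simpa using h5

theorem face_equiv {ι : Type} (U : ι → LV D) (T : LV D →ₗ[ℝ] LV D) (hT : Function.Injective T) (S : Set ι) :
    Face (fun i => T (U i)) S ↔ Face U S := by
  have hb : Function.Bijective T := ⟨hT, LinearMap.surjective_of_injective hT⟩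
  let e := LinearEquiv.ofBijective T hb
  constructor
  · rintro ⟨l, h1, h2⟩
    exact ⟨l ∘ₗ T, h1, h2⟩
  · rintro ⟨l, h1, h2⟩
    refine ⟨l ∘ₗ e.symm.toLinearMap, fun i => ?_, fun i => ?_⟩
    · show 0 ≤ l (e.symm (T (U i)))
      rw [show e.symm (T (U i)) = U i from e.symm_apply_apply (U i)]
      exact h1 i
    · show i ∈ S ↔ l (e.symm (T (U i))) = 0
      rw [show e.symm (T (U i)) = U i from e.symm_apply_apply (U i)]
      exact h2 i

/-- a segment whose end points have the right product is tangent to the sphere -/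
theorem tangent_of {a b : Fin D → ℝ} {α β : ℝ} (hα : 0 < α) (hβ : 0 < β)
    (haa : B (hom a) (hom a) = α * α) (hbb : B (hom b) (hom b) = β * β)
    (hab : B (hom a) (hom b) = -(α * β)) :
    ∃ p ∈ segment ℝ a b, ∑ i, p i ^ 2 = 1 ∧ ∀ t : ℝ, 1 ≤ ∑ i, (a i + t * (b i - a i)) ^ 2 := by
  have key : ∀ t : ℝ, ∑ i, (a i + t * (b i - a i)) ^ 2 = 1 + ((1 - t) * α - t * β) ^ 2 := by
    intro t
    have e1 : ∑ i, (a i + t * (b i - a i)) ^ 2 =
        (1 - t) ^ 2 * (B (hom a) (hom a) + 1) + 2 * t * (1 - t) * (B (hom a) (hom b) + 1) +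
          t ^ 2 * (B (hom b) (hom b) + 1) := by
      unfold B hom
      simp only [Option.elim, mul_one, sub_add_cancel, Finset.mul_sum]
      rw [← Finset.sum_add_distrib, ← Finset.sum_add_distrib]
      exact Finset.sum_congr rfl fun i _ => by ring
    rw [e1, haa, hbb, hab]
    ring
  have hs : 0 < α + β := add_pos hα hβ
  refine ⟨a + (α / (α + β)) • (b - a), ?_, ?_, fun t => ?_⟩
  · rw [segment_eq_image']
    exact ⟨α / (α + β), ⟨by positivity, by rw [div_le_one hs]; linarith⟩, rfl⟩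
  · have := key (α / (α + β))
    have h0 : (1 - α / (α + β)) * α - α / (α + β) * β = 0 := by
      field_simp
      ring
    rw [h0] at this
    simpa using this
  · rw [key]
    nlinarith [sq_nonneg ((1 - t) * α - t * β)]

/-- **The image of an edge-scribed polytope.** -/
theorem real (hD : 2 ≤ D) {V : Finset (Fin D → ℝ)}
    (hint : (interior (convexHull ℝ (V : Set (Fin D → ℝ)))).Nonempty) (hT : Tang V)
    (T : LV D →ₗ[ℝ] LV D) (hB : ∀ x y, B (T x) (T y) = B x y)
    (hpos : ∀ a ∈ EP V, 0 < T (hom a) none) :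
    ∃ (W : Finset (Fin D → ℝ)) (f : (Fin D → ℝ) → (Fin D → ℝ)),
      (interior (convexHull ℝ (W : Set (Fin D → ℝ)))).Nonempty ∧ Tang W ∧
      (W : Set (Fin D → ℝ)) = EP W ∧
      Set.BijOn f (EP V) (EP W) ∧
      (∀ S ⊆ EP V, (IsExposed ℝ (convexHull ℝ (V : Set (Fin D → ℝ))) (convexHull ℝ S) ↔
        IsExposed ℝ (convexHull ℝ (W : Set (Fin D → ℝ))) (convexHull ℝ (f '' S)))) ∧
      ∀ a ∈ EP V, T (hom a) = (T (hom a) none) • hom (f a) := by
  have hTi := inj_of hB
  obtain ⟨hfin, hvert, hspan⟩ := tr1 D hD V hint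
  obtain ⟨hout, hedge⟩ := tr2 D hD V hint hT
  have hVf : (EP V).Finite := V.finite_toSet.subset extremePoints_convexHull_subset
  let f : (Fin D → ℝ) → (Fin D → ℝ) := fun a j => T (hom a) (some j) / T (hom a) none
  have hf : ∀ a ∈ EP V, T (hom a) = (T (hom a) none) • hom (f a) := by
    intro a ha
    have h0 := (hpos a ha).ne'
    ext i
    cases i with
    | none => simp [hom]
    | some j =>
      show T (hom a) (some j) = T (hom a) none * (T (hom a) (some j) / T (hom a) none)
      field_simp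
  let W : Finset (Fin D → ℝ) := hVf.toFinset.image f
  have hW : (W : Set (Fin D → ℝ)) = f '' EP V := by
    rw [Finset.coe_image, hVf.coe_toFinset]
  -- injectivity
  have hinj : Set.InjOn f (EP V) := by
    intro a ha b hb hab
    have h1 : T (hom a) = T ((T (hom a) none / T (hom b) none) • hom b) := by
      rw [map_smul, hf b hb, hf a ha, hab]
      simp only [Pi.smul_apply, smul_eq_mul]
      rw [smul_smul]
      congr 1
      have := (hpos b hb).ne'
      simp only [hom, Option.elim, mul_one]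
      field_simp
    have h2 := hTi h1
    have h3 : T (hom a) none / T (hom b) none = 1 := by
      have := congrFun h2 none
      simpa [hom] using this.symm
    rw [h3, one_smul] at h2
    ext i
    exact congrFun h2 (some i)
  -- faces in terms of the lifts
  have hEPW : EP W = W := by
    apply Set.Subset.antisymm
    · exact extremePoints_convexHull_subset
    · intro y hy
      rw [hW] at hy
      obtain ⟨a, ha, rfl⟩ := hy
      obtain ⟨l, h1, h2⟩ := (face_equiv (fun i : EP V => hom (i : Fin D → ℝ)) T hTi {⟨a, ha⟩}).2 (hvert ⟨a, ha⟩)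
      have hl : ∀ b (hb : b ∈ EP V), l (T (hom b)) = T (hom b) none * l (hom (f b)) := by
        intro b hb
        conv_lhs => rw [hf b hb]
        rw [map_smul, smul_eq_mul]
      refine ext_of_face (l := l) (by rw [← Finset.mem_coe, hW]; exact ⟨a, ha, rfl⟩) ?_ ?_ ?_
      · intro w hw
        rw [← Finset.mem_coe, hW] at hw
        obtain ⟨b, hb, rfl⟩ := hw
        have := h1 ⟨b, hb⟩
        change 0 ≤ l (T (hom b)) at this
        rw [hl b hb] at this
        exact (mul_nonneg_iff_of_pos_left (hpos b hb)).1 this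
      · intro w hw hw0
        rw [← Finset.mem_coe, hW] at hw
        obtain ⟨b, hb, rfl⟩ := hw
        have h3 := (h2 ⟨b, hb⟩).2 (by
          show l (T (hom b)) = 0
          rw [hl b hb, hw0, mul_zero])
        have h4 : (⟨b, hb⟩ : EP V) = ⟨a, ha⟩ := h3
        rw [show b = a from congrArg Subtype.val h4]
      · have h3 := (h2 ⟨a, ha⟩).1 rfl
        change l (T (hom a)) = 0 at h3
        rw [hl a ha] at h3
        exact (mul_eq_zero.1 h3).resolve_left (hpos a ha).ne'
  have hbij : Set.BijOn f (EP V) (EP W) := by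
    rw [hEPW, hW]
    exact hinj.bijOn_image
  let e : EP V ≃ EP W := hbij.equiv f
  have he : ∀ i : EP V, ((e i : EP W) : Fin D → ℝ) = f i := fun i => rfl
  have hface : ∀ S : Set (EP V), Face (fun i : EP V => hom (i : Fin D → ℝ)) S ↔
      Face (fun i : EP W => hom (i : Fin D → ℝ)) (e '' S) := by
    intro S
    rw [← face_equiv (fun i : EP V => hom (i : Fin D → ℝ)) T hTi S, ← face_comp]
    have h1 : (fun i : EP V => T (hom (i : Fin D → ℝ))) =
        fun i : EP V => (T (hom (i : Fin D → ℝ)) none) • hom ((e i : EP W) : Fin D → ℝ) := by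
      funext i
      rw [he i]
      exact hf i i.2
    rw [h1]
    exact face_smul (fun i : EP V => hom ((e i : EP W) : Fin D → ℝ)) (fun i => T (hom (i : Fin D → ℝ)) none)
      (fun i => hpos i i.2) S
  have hfaces : ∀ S ⊆ EP V, (IsExposed ℝ (convexHull ℝ (V : Set (Fin D → ℝ))) (convexHull ℝ S) ↔
      IsExposed ℝ (convexHull ℝ (W : Set (Fin D → ℝ))) (convexHull ℝ (f '' S))) := by
    intro S hS
    rcases S.eq_empty_or_nonempty with rfl | hSn
    · simp only [Set.image_empty, convexHull_empty]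
      exact ⟨fun _ h => absurd h Set.not_nonempty_empty, fun _ h => absurd h Set.not_nonempty_empty⟩
    · have hfS : f '' S ⊆ EP W := by
        rintro _ ⟨x, hx, rfl⟩
        exact hbij.mapsTo (hS hx)
      rw [f1 D V S hS hSn, f1 D W _ hfS (hSn.image f), hface]
      have e2 : e '' {i : EP V | (i : Fin D → ℝ) ∈ S} = {i : EP W | (i : Fin D → ℝ) ∈ f '' S} := by
        ext i
        constructor
        · rintro ⟨j, hj, rfl⟩
          exact ⟨j, hj, rfl⟩
        · rintro ⟨x, hx, hxi⟩
          exact ⟨⟨x, hS hx⟩, hx, Subtype.ext hxi⟩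
      rw [e2]
  -- nonempty
  have hVne : V.Nonempty := by
    rw [Finset.nonempty_iff_ne_empty]
    rintro rfl
    simp at hint
  have hEne : (EP V).Nonempty := by
    by_contra hcon
    rw [Set.not_nonempty_iff_eq_empty] at hcon
    have := F3.hull V
    rw [hcon, convexHull_empty] at this
    rw [this] at hint
    simp at hint
  have hWne : W.Nonempty := by
    rw [← Finset.coe_nonempty, hW]
    exact hEne.image f
  have hWspan : Submodule.span ℝ (hom '' (W : Set (Fin D → ℝ))) = ⊤ := by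
    rw [eq_top_iff]
    have h1 : (⊤ : Submodule ℝ (LV D)) = Submodule.map T ⊤ := by
      rw [Submodule.map_top, LinearMap.range_eq_top.2 (LinearMap.surjective_of_injective hTi)]
    rw [h1, ← hspan, Submodule.map_span, Submodule.span_le]
    rintro _ ⟨_, ⟨i, rfl⟩, rfl⟩
    show T (hom (i : Fin D → ℝ)) ∈ _
    rw [hf i i.2]
    refine Submodule.smul_mem _ _ (Submodule.subset_span ?_)
    rw [hW]
    exact ⟨f i, ⟨i, i.2, rfl⟩, rfl⟩
  refine ⟨W, f, interior_of_span hWne hWspan, ?_, hEPW.symm, hbij, hfaces, hf⟩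
  -- tangency
  intro a' ha' b' hb' hne hexp
  rw [← Finset.mem_coe, hW] at ha' hb'
  obtain ⟨a, ha, rfl⟩ := ha'
  obtain ⟨b, hb, rfl⟩ := hb'
  have hab : a ≠ b := fun h => hne (by rw [h])
  have hS : ({a, b} : Set (Fin D → ℝ)) ⊆ EP V := by
    rintro x (rfl | rfl) <;> assumption
  have h1 := (hfaces {a, b} hS).2 (by rw [Set.image_pair, convexHull_pair]; exact hexp)
  rw [f1 D V _ hS ⟨a, Or.inl rfl⟩] at h1
  have h2 : {i : EP V | (i : Fin D → ℝ) ∈ ({a, b} : Set (Fin D → ℝ))} = {⟨a, ha⟩, ⟨b, hb⟩} := by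
    ext i
    simp only [Set.mem_ofPred_eq, Set.mem_insert_iff, Set.mem_singleton_iff, Subtype.ext_iff]
  rw [h2] at h1
  have h3 := hedge ⟨a, ha⟩ ⟨b, hb⟩ (fun h => hab (congrArg Subtype.val h)) h1
  have pa := hpos a ha
  have pb := hpos b hb
  have na := nrm_pos (hout a ha)
  have nb := nrm_pos (hout b hb)
  set ca := T (hom a) none with hca
  set cb := T (hom b) none with hcb
  have ea : B (T (hom a)) (T (hom a)) = ca * ca * B (hom (f a)) (hom (f a)) := by
    rw [hf a ha, B_smul_smul]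
  have eb : B (T (hom b)) (T (hom b)) = cb * cb * B (hom (f b)) (hom (f b)) := by
    rw [hf b hb, B_smul_smul]
  have eab : B (T (hom a)) (T (hom b)) = ca * cb * B (hom (f a)) (hom (f b)) := by
    rw [hf a ha, hf b hb, B_smul_smul]
  rw [hB] at ea eb eab
  have sa : B (hom a) (hom a) = nrm a * nrm a := by
    rw [B_hom]
    exact (Real.mul_self_sqrt (by have := hout a ha; linarith)).symm
  have sb : B (hom b) (hom b) = nrm b * nrm b := by
    rw [B_hom]
    exact (Real.mul_self_sqrt (by have := hout b hb; linarith)).symm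
  have sab : B (hom a) (hom b) = -(nrm a * nrm b) := h3
  refine tangent_of (α := nrm a / ca) (β := nrm b / cb) (div_pos na pa) (div_pos nb pb) ?_ ?_ ?_
  · rw [sa] at ea
    field_simp
    linarith
  · rw [sb] at eb
    field_simp
    linarith
  · rw [sab] at eab
    field_simp
    linarith

end Pool.Agent.KS6_60.MB
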